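import Mathlib
import Pool.Agent.Lib_MP_8a2735_ag.Defs
import Pool.Agent.Lib_MP_8a2735_ag.Rank
import Pool.Agent.Lib_MP_8a2735_ag.Curve

/-!
# Points in uniform position on few quadrics and curves of low degree: a counterexample

Over every field of characteristic zero we exhibit twenty points of projective 5-space in uniform
position, imposing only `14 = 2 * 5 + 4` conditions on quadrics, such that every curve through
them has degree at least `10`, although the proposed bound for `r = 5`, `α = 4` is
`r - 1 + α = 8` (and `20 ≥ 2 * 5 + 2 * 4 + 1 = 19`).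

The points are `(1, x, x ^ 2, x ^ 3, x ^ 4 - 1845, x ^ 5 - 3690 * x)` for
`x = ±1, ±3, ±10, ±14, ±18` and `(1, y, y ^ 2, y ^ 3, y ^ 4 + 1845, y ^ 5 + 3690 * y)` for
`y = ±6, ±7, ±8, ±15, ±16`.
-/

open MvPolynomial
open Pool.Agent.Lib_MP_8a2735_ag

namespace Pool.Agent.Results.MP_8a2735_ag.UniformPositionCounterexample

variable {K : Type*} [Field K]

lemma eval_smul_hom {d : ℕ} {f : MvPolynomial (Fin 6) K} (hf : f.IsHomogeneous d) (a : K)
    (v : Fin 6 → K) : eval (a • v) f = a ^ d * eval v f := by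
  rw [eval_eq', eval_eq', Finset.mul_sum]
  refine Finset.sum_congr rfl (fun m hm => ?_)
  have hdeg : ∑ i, m i = d := by
    rw [hf.degree_eq_sum_deg_support hm]
    exact (Finset.sum_subset (Finset.subset_univ _)
      (fun i _ hi => Finsupp.notMem_support_iff.mp hi)).symm
  simp only [Pi.smul_apply, smul_eq_mul, mul_pow, Finset.prod_mul_distrib,
    Finset.prod_pow_eq_pow_sum, hdeg]
  ring

lemma V_ne_zero (k : Fin 20) : V K k ≠ 0 := fun h => by
  have := congrFun h 0
  rw [V_zero] at this
  exact one_ne_zero this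

/-- The twenty points of projective 5-space. -/
noncomputable def pt (K : Type*) [Field K] (k : Fin 20) :
    Projectivization K (Fin (5 + 1) → K) :=
  Projectivization.mk K (V K k) (V_ne_zero k)

lemma exists_scale (k : Fin 20) : ∃ a : Kˣ, (pt K k).rep = (a : K) • V K k := by
  obtain ⟨a, ha⟩ := Projectivization.exists_smul_eq_mk_rep K (V K k) (V_ne_zero k)
  exact ⟨a, ha.symm⟩

/-- The scaling factor between the representative and the integer vector. -/
noncomputable def sc (K : Type*) [Field K] (k : Fin 20) : Kˣ := (exists_scale (K := K) k).choose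

lemma rep_eq (k : Fin 20) : (pt K k).rep = (sc K k : K) • V K k :=
  (exists_scale (K := K) k).choose_spec

variable [CharZero K]

lemma pt_injective : Function.Injective (pt K) := by
  intro i j hij
  by_contra hne
  have h1 : pt K i = pt K j := hij
  unfold pt at h1
  rw [Projectivization.mk_eq_mk_iff'] at h1
  obtain ⟨a, ha⟩ := h1
  have ha0 : a = 1 := by
    have := congrFun ha 0
    simpa [V_zero] using this
  subst ha0
  rw [one_smul] at ha
  -- extend to a relation on six points
  have hc : ({i, j} : Finset (Fin 20)).card ≤ 6 := by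
    rw [Finset.card_pair hne]; norm_num
  obtain ⟨T', hT', hcT'⟩ := Finset.exists_superset_card_eq hc (by simp)
  obtain ⟨m, hm⟩ := interp (K := K) T' hcT' (fun k => if k = i then 1 else 0)
  have hi := hm i (hT' (by simp))
  have hj := hm j (hT' (by simp))
  rw [ha, hi] at hj
  simp [Ne.symm hne] at hj

/-- The set of twenty points. -/
noncomputable def Gam (K : Type*) [Field K] [CharZero K] :
    Finset (Projectivization K (Fin (5 + 1) → K)) :=
  Finset.univ.map ⟨pt K, pt_injective⟩

/-- The index set of a subset. -/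
noncomputable def idx (Γ₁ : Finset (Projectivization K (Fin (5 + 1) → K))) : Finset (Fin 20) :=
  Finset.univ.preimage (fun k => k) (fun _ _ _ _ h => h) ∩
    Γ₁.preimage (pt K) pt_injective.injOn

lemma mem_idx {Γ₁ : Finset (Projectivization K (Fin (5 + 1) → K))} {k : Fin 20} :
    k ∈ idx Γ₁ ↔ pt K k ∈ Γ₁ := by
  simp [idx]

lemma card_idx {Γ₁ : Finset (Projectivization K (Fin (5 + 1) → K))} (h : Γ₁ ⊆ Gam K) :
    (idx Γ₁).card = Γ₁.card := by
  rw [← Finset.card_map ⟨pt K, pt_injective⟩]
  congr 1
  ext p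
  rw [Finset.mem_map]
  constructor
  · rintro ⟨k, hk, rfl⟩
    exact mem_idx.mp hk
  · intro hp
    obtain ⟨k, _, hk⟩ := Finset.mem_map.mp (h hp)
    refine ⟨k, mem_idx.mpr ?_, hk⟩
    change pt K k = p at hk
    rw [hk]; exact hp

/-- The bijection between a subset and its indices. -/
noncomputable def idxEquiv {Γ₁ : Finset (Projectivization K (Fin (5 + 1) → K))}
    (h : Γ₁ ⊆ Gam K) : idx Γ₁ ≃ Γ₁ :=
  Equiv.ofBijective (fun k => ⟨pt K k.1, mem_idx.mp k.2⟩) (by
    constructor
    · intro a b hab
      exact Subtype.ext (pt_injective (congrArg Subtype.val hab))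
    · rintro ⟨p, hp⟩
      obtain ⟨k, _, hk⟩ := Finset.mem_map.mp (h hp)
      change pt K k = p at hk
      exact ⟨⟨k, mem_idx.mpr (by rw [hk]; exact hp)⟩, Subtype.ext hk⟩)

lemma hilbertFn_eq {Γ₁ : Finset (Projectivization K (Fin (5 + 1) → K))} (h : Γ₁ ⊆ Gam K)
    (d : ℕ) : hilbertFn Γ₁ d = rk K (idx Γ₁) d := by
  let e : (idx Γ₁ → K) ≃ₗ[K] (Γ₁ → K) :=
    (LinearEquiv.piCongrRight (fun k : idx Γ₁ =>
      LinearEquiv.smulOfUnit ((sc K k.1) ^ d))).trans
      (LinearEquiv.funCongrLeft K K (idxEquiv h).symm)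
  have hcomp : evalForms Γ₁ d = e.toLinearMap.comp (E K (idx Γ₁) d) := by
    ext f p
    obtain ⟨k, rfl⟩ := (idxEquiv h).surjective p
    show eval ((pt K k.1).rep) f.1 = _
    rw [rep_eq, eval_smul_hom f.2]
    show _ = ((sc K ((idxEquiv h).symm (idxEquiv h k)).1 ^ d : Kˣ) : K) *
      eval (V K ((idxEquiv h).symm (idxEquiv h k)).1) f.1
    rw [Equiv.symm_apply_apply]
    simp
  unfold hilbertFn rk
  rw [hcomp, LinearMap.range_comp]
  exact LinearEquiv.finrank_map_eq e _

lemma card_Gam : (Gam K).card = 20 := by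
  rw [Gam, Finset.card_map]; simp

lemma uniform : UniformPosition (Gam K) := by
  intro Γ₁ h₁ Γ₂ h₂ hc d
  rw [hilbertFn_eq h₁, hilbertFn_eq h₂, rk_eq, rk_eq, card_idx h₁, card_idx h₂, hc]

lemma lgp : LinearGeneralPosition (Gam K) := by
  intro Γ₁ h₁ hc
  have hc' : (idx Γ₁).card ≤ 6 := by rw [card_idx h₁]; exact hc
  obtain ⟨T', hT', hcT'⟩ := Finset.exists_superset_card_eq hc' (by simp)
  rw [Fintype.linearIndependent_iff]
  intro g hg p
  set μ : Fin 20 → K := fun k => if hk : k ∈ idx Γ₁ then
    g ⟨pt K k, mem_idx.mp hk⟩ * (sc K k : K) else 0 with hμ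
  have h0 : μ = 0 := by
    refine indepK' T' hcT' μ ?_ ?_
    · intro k hk
      have : k ∉ idx Γ₁ := fun h => hk (hT' h)
      simp [hμ, this]
    · intro j
      have hj := congrFun hg j
      rw [Finset.sum_apply, Pi.zero_apply] at hj
      rw [← hj, ← Equiv.sum_comp (idxEquiv h₁)]
      rw [← Finset.sum_subset (Finset.subset_univ (idx Γ₁)), ← Finset.sum_coe_sort (idx Γ₁)]
      · refine Finset.sum_congr rfl (fun k _ => ?_)
        have hk : k.1 ∈ idx Γ₁ := k.2
        simp only [hμ, hk, dite_true]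
        show _ = g ⟨pt K k.1, _⟩ * (pt K k.1).rep j
        rw [rep_eq, Pi.smul_apply, smul_eq_mul, mul_assoc]
      · intro k _ hk
        simp [hμ, hk]
  obtain ⟨k, rfl⟩ := (idxEquiv h₁).surjective p
  have hk := congrFun h0 k.1
  have hkk : k.1 ∈ idx Γ₁ := k.2
  simp only [hμ, hkk, dite_true, Pi.zero_apply] at hk
  exact (mul_eq_zero.mp hk).resolve_right (Units.ne_zero _)

lemma hilb_two : hilbertFn (Gam K) 2 = 14 := by
  rw [hilbertFn_eq (Finset.Subset.refl _), rk_eq, card_idx (Finset.Subset.refl _), card_Gam]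
  rfl

/-- **Main theorem.** Over every field of characteristic zero there are twenty points of
projective 5-space, in linear general position and in uniform position, imposing exactly 14
conditions on quadrics, and lying on no curve of degree less than 10. -/
theorem result (K : Type*) [Field K] [CharZero K] :
    ∃ Γ : Finset (Projectivization K (Fin (5 + 1) → K)),
      Γ.card = 20 ∧ LinearGeneralPosition Γ ∧ UniformPosition Γ ∧ hilbertFn Γ 2 = 14 ∧
      ∀ (I : Ideal (MvPolynomial (Fin (5 + 1)) K)) (e : ℕ),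
        IsCurveOfDegree I e → LiesOn Γ I → 10 ≤ e := by
  refine ⟨Gam K, card_Gam, lgp, uniform, hilb_two, ?_⟩
  intro I e hI hV
  refine ten_le I e hI.homogeneous hI.pure_dim_one hI.hilbert_polynomial ?_
  intro k f hf
  rw [← sum_homogeneousComponent f, map_sum]
  refine Finset.sum_eq_zero (fun n _ => ?_)
  have h1 := hV (pt K k) (Finset.mem_map.mpr ⟨k, Finset.mem_univ _, rfl⟩) _
    (hI.homogeneous f hf n)
  rw [rep_eq] at h1
  have h2 := eval_smul_hom (homogeneousComponent_isHomogeneous n f) (sc K k : K) (V K k)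
  rw [h2] at h1
  exact (mul_eq_zero.mp h1).resolve_left (pow_ne_zero _ (Units.ne_zero _))

end Pool.Agent.Results.MP_8a2735_ag.UniformPositionCounterexample
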